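import Pool.Graph.R_seed8.Results.MP_f39c46_an.AllJanowskiPairs

/-!
# The radius `δ(A, B)` is sharp already for local univalence, and for a single extremal function
-/

set_option autoImplicit false

namespace Pool.Agent.Results.MP_f39c46_an.SharpForLocallyUnivalent

open Metric Set
open Pool.Agent.Results.MP_f39c46_an.AllJanowskiPairs (IsA taylorCoeff IsStarlike InNeighbourhood
  Subordinate InK delta delta_eq)

/-- The normalised analytic functions which are locally univalent in the unit disc, i.e. whose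
derivative has no zero. -/
def LocallyUnivalent (g : ℂ → ℂ) : Prop := IsA g ∧ ∀ z ∈ ball (0 : ℂ) 1, deriv g z ≠ 0

open Pool.Agent.R250.GN in
/-- one extremal function for all the radii above `δ(A, B)` -/
theorem sharp (A B : ℝ) (hB : -1 ≤ B) (hBA : B < A) (hA : A ≤ 1) :
    ∃ f : ℂ → ℂ, InK A B f ∧ ∀ δ : ℝ, delta A B < δ → ∃ c r : ℝ, 0 < c ∧ 0 < r ∧ r < 1 ∧
      InNeighbourhood δ f (fun z => f z + c * z ^ 2) ∧
      deriv (fun z => f z + c * z ^ 2) (-(r : ℂ)) = 0 := by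
  have hB1 : B < 1 := by linarith
  rw [delta_eq hB1]
  obtain ⟨f, fd, f0, f1, hne, h, hr⟩ := extremal hB hBA hA
  have D := dat_of hB hBA hA (ω := id) fd f0 f1 hne differentiableOn_id (mapsTo_id _) rfl
    (fun z hz => h z hz)
  have hgd : DifferentiableOn ℂ (dslope f 0) (ball 0 1) :=
    (Complex.differentiableOn_dslope (isOpen_ball.mem_nhds (mem_ball_self one_pos))).2 fd
  have hst := starlike_of_pos fd hgd (fun z _ => by
    have := sub_smul_dslope f 0 z
    rw [f0, sub_zero, sub_zero, smul_eq_mul] at this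
    exact this.symm) (fun z hz => D.pos hz)
  have hK : InK A B f := ⟨⟨fd, f0, f1⟩, hst.1, id, differentiableOn_id, mapsTo_id _, rfl,
    fun z hz => h z hz⟩
  refine ⟨f, hK, ?_⟩
  intro δ hcon
  -- the radius
  obtain ⟨r, hr0, hr1, hrδ⟩ : ∃ r : ℝ, 0 < r ∧ r < 1 ∧ Real.exp (Mf A B r) / r < δ := by
    have hc : ContinuousAt (fun r : ℝ => Real.exp (Mf A B r) / r) 1 := by
      have h1 : ContinuousAt (Mf A B) 1 :=
        (Mf_deriv (Bpos hB hBA hA zero_le_one le_rfl)).continuousAt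
      exact h1.rexp.div continuousAt_id one_ne_zero
    have h2 : ∀ᶠ r in nhds (1 : ℝ), Real.exp (Mf A B r) / r < δ := by
      apply hc.eventually_lt_const
      beta_reduce
      rw [div_one]
      exact hcon
    have h3 : ∀ᶠ r in nhdsWithin (1 : ℝ) (Iio 1), Real.exp (Mf A B r) / r < δ :=
      h2.filter_mono nhdsWithin_le_nhds
    have h4 : ∀ᶠ r in nhdsWithin (1 : ℝ) (Iio 1), r ∈ Ioo (0 : ℝ) 1 := Ioo_mem_nhdsLT zero_lt_one
    obtain ⟨r, h5, h6⟩ := (h3.and h4).exists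
    exact ⟨r, h6.1, h6.2, h5⟩
  obtain ⟨m, hm⟩ : ∃ m, m = Real.exp (Mf A B r) := ⟨_, rfl⟩
  have hm0 : 0 < m := hm ▸ Real.exp_pos _
  refine ⟨m / (2 * r), r, by positivity, hr0, hr1, ?_⟩
  obtain ⟨c, hc⟩ : ∃ c : ℂ, c = ((m / (2 * r) : ℝ) : ℂ) := ⟨_, rfl⟩
  rw [← hc]
  have hcn : ‖c‖ = m / (2 * r) := by
    rw [hc, Complex.norm_real, Real.norm_of_nonneg (by positivity)]
  set G : ℂ → ℂ := fun z => f z + c * z ^ 2 with hG
  have hsq : ∀ z : ℂ, HasDerivAt (fun z : ℂ => c * z ^ 2) (c * (2 * z)) z := by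
    intro z
    have := (hasDerivAt_pow 2 z).const_mul c
    refine this.congr_deriv ?_
    simp
  have Gd' : ∀ z ∈ ball (0 : ℂ) 1, HasDerivAt G (deriv f z + c * (2 * z)) z := fun z hz =>
    (fd.differentiableAt (isOpen_ball.mem_nhds hz)).hasDerivAt.add (hsq z)
  have Gd : DifferentiableOn ℂ G (ball 0 1) := fun z hz =>
    (Gd' z hz).differentiableAt.differentiableWithinAt
  have hterm : ∀ k : ℕ, ((k : ℝ) + 2) * ‖taylorCoeff f (k + 2) - taylorCoeff G (k + 2)‖ =
      if k = 0 then m / r else 0 := by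
    intro k
    have h1 : taylorCoeff G (k + 2) = taylorCoeff f (k + 2) + if k + 2 = 2 then c else 0 :=
      tc_add_sq fd c (k + 2)
    rw [h1, sub_add_cancel_left, norm_neg]
    by_cases hk : k = 0
    · rw [if_pos hk, if_pos (by omega), hcn, hk]
      push_cast
      field_simp
      ring
    · rw [if_neg hk, if_neg (by omega), norm_zero, mul_zero]
  have hnbh : InNeighbourhood δ f G := by
    refine ⟨⟨Gd, ?_, ?_⟩, ?_, ?_⟩
    · simp [hG, f0]
    · rw [(Gd' 0 (mem_ball_self one_pos)).deriv, f1]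
      simp
    · simp only [hterm]
      exact summable_of_ne_finset_zero (s := {0}) (fun k hk => if_neg (by simpa using hk))
    · simp only [hterm]
      rw [tsum_ite_eq]
      rw [← hm] at hrδ
      exact hrδ.le
  refine ⟨hnbh, ?_⟩
  have hmem : -(r : ℂ) ∈ ball (0 : ℂ) 1 := by
    rw [mem_ball_zero_iff, norm_neg, Complex.norm_real, Real.norm_of_nonneg hr0.le]
    exact hr1
  rw [(Gd' _ hmem).deriv, hr r hr0 hr1, ← hm, hc]
  have : (r : ℂ) ≠ 0 := by exact_mod_cast hr0.ne'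
  push_cast
  field_simp
  ring

/-- Let `-1 ≤ B < A ≤ 1`. There is one function `f₀` in `K[A, B]` such that
(1) for every `δ > δ(A, B)` a perturbation `f₀ + c z²`, `c > 0`, is in `N_δ(f₀)` and has a critical point
in the disc; and for every class `Q` of functions which contains the starlike functions and consists of
locally univalent functions, `δ(A, B)` is the largest `δ` such that
(2) `N_δ(f) ⊆ Q` for every `f ∈ K[A, B]`; (3) `N_δ(f₀) ⊆ Q`. -/
theorem result (A B : ℝ) (hB : -1 ≤ B) (hBA : B < A) (hA : A ≤ 1) :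
    ∃ f₀ : ℂ → ℂ, InK A B f₀ ∧
      (∀ δ : ℝ, delta A B < δ → ∃ c r : ℝ, 0 < c ∧ 0 < r ∧ r < 1 ∧
        InNeighbourhood δ f₀ (fun z => f₀ z + c * z ^ 2) ∧
        deriv (fun z => f₀ z + c * z ^ 2) (-(r : ℂ)) = 0) ∧
      ∀ Q : (ℂ → ℂ) → Prop, (∀ g, IsStarlike g → Q g) → (∀ g, Q g → LocallyUnivalent g) →
        IsGreatest {δ : ℝ | ∀ f, InK A B f → ∀ g, InNeighbourhood δ f g → Q g} (delta A B) ∧
        IsGreatest {δ : ℝ | ∀ g, InNeighbourhood δ f₀ g → Q g} (delta A B) := by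
  obtain ⟨f₀, hK, hs⟩ := sharp A B hB hBA hA
  refine ⟨f₀, hK, hs, ?_⟩
  intro Q hQ1 hQ2
  have hall := (AllJanowskiPairs.result A B hB hBA hA).1
  have hup : ∀ δ : ℝ, (∀ g, InNeighbourhood δ f₀ g → Q g) → δ ≤ delta A B := by
    intro δ hδ
    by_contra hcon
    push Not at hcon
    obtain ⟨c, r, hc, hr0, hr1, hn, hz⟩ := hs δ hcon
    refine (hQ2 _ (hδ _ hn)).2 (-(r : ℂ)) ?_ hz
    rw [mem_ball_zero_iff, norm_neg, Complex.norm_real, Real.norm_of_nonneg hr0.le]
    exact hr1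
  exact ⟨⟨fun f hf g hg => hQ1 g (hall f hf g hg), fun δ hδ => hup δ (hδ f₀ hK)⟩,
    ⟨fun g hg => hQ1 g (hall f₀ hK g hg), fun δ hδ => hup δ hδ⟩⟩

end Pool.Agent.Results.MP_f39c46_an.SharpForLocallyUnivalent
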